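import Mathlib

/-!
# k-lookahead auctions: definitions and general facts (problem MP_0f9109_lc)

The definitions and the existence of revenue-maximizing mechanisms are those of the library module
`R_pool_sql_team_668148b0/Results/MP_0f9109_lc/RatioFourFifths.lean`.
-/

open Finset Function

namespace Pool.Agent.H49.Look

/-- A direct single-item mechanism for `n` bidders: at the report profile `v` bidder `i` receives
the item with probability `x v i` and her expected payment is `p v i`. -/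
structure Mech (n : ℕ) where
  x : (Fin n → ℝ) → Fin n → ℝ
  p : (Fin n → ℝ) → Fin n → ℝ

/-- `M` is a feasible, individually rational, truthful-in-expectation mechanism for the set `K` of
bidders. The reports of the bidders outside `K` are fixed parameters. For `K = univ` this is the
usual notion for all `n` bidders. -/
def Valid {n : ℕ} (K : Finset (Fin n)) (M : Mech n) : Prop :=
  ∀ v : Fin n → ℝ, (∀ i, 0 < v i) →
    (∀ i ∈ K, 0 ≤ M.x v i) ∧ (∑ i ∈ K, M.x v i ≤ 1) ∧
    (∀ i ∈ K, 0 ≤ M.x v i * v i - M.p v i) ∧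
    (∀ i ∈ K, ∀ b : ℝ, 0 < b →
      M.x (update v i b) i * v i - M.p (update v i b) i ≤ M.x v i * v i - M.p v i)

/-- `D` is a finitely supported probability distribution on valuation profiles with positive
values. -/
def IsDist {n : ℕ} (D : (Fin n → ℝ) →₀ ℝ) : Prop :=
  (∀ v, 0 ≤ D v) ∧ (∑ v ∈ D.support, D v = 1) ∧ ∀ v ∈ D.support, ∀ i, 0 < v i

/-- The optimal expected revenue over all mechanisms for all `n` bidders. -/
noncomputable def OPT {n : ℕ} (D : (Fin n → ℝ) →₀ ℝ) : ℝ :=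
  sSup {r : ℝ | ∃ M : Mech n, Valid univ M ∧ r = ∑ v ∈ D.support, D v * ∑ i, M.p v i}

open Classical in
/-- The set of the `k` highest bidders at `v`, ties broken by index. -/
noncomputable def top {n : ℕ} (k : ℕ) (v : Fin n → ℝ) : Finset (Fin n) :=
  univ.filter fun i => (univ.filter fun j => v i < v j ∨ (v j = v i ∧ j < i)).card < k

open Classical in
/-- The event that `D_K` conditions on: the profiles in the support that agree with `v` outside
`K` and in which every bidder of `K` has at least the largest value outside `K`. -/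
noncomputable def cell {n : ℕ} (D : (Fin n → ℝ) →₀ ℝ) (K : Finset (Fin n)) (v : Fin n → ℝ) :
    Finset (Fin n → ℝ) :=
  D.support.filter fun u => (∀ j, j ∉ K → u j = v j) ∧ ∀ i ∈ K, ∀ j, j ∉ K → v j ≤ u i

/-- The expected revenue of `M` from the bidders in `K` under the conditional distribution
`D_K`. -/
noncomputable def condRev {n : ℕ} (D : (Fin n → ℝ) →₀ ℝ) (K : Finset (Fin n)) (v : Fin n → ℝ)
    (M : Mech n) : ℝ :=
  (∑ u ∈ cell D K v, D u * ∑ i ∈ K, M.p u i) / ∑ u ∈ cell D K v, D u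

/-- `M` is a revenue-maximizing mechanism for `D_K`. -/
def IsOptimalFor {n : ℕ} (D : (Fin n → ℝ) →₀ ℝ) (K : Finset (Fin n)) (v : Fin n → ℝ)
    (M : Mech n) : Prop :=
  Valid K M ∧ ∀ M' : Mech n, Valid K M' → condRev D K v M' ≤ condRev D K v M

/-- `m` is a `k`-lookahead mechanism for `D`: it serves only the set `K` of the `k` highest
bidders, with a mechanism `m K` that is revenue-maximizing for `D_K`. -/
def IsLookahead {n : ℕ} (k : ℕ) (D : (Fin n → ℝ) →₀ ℝ) (m : Finset (Fin n) → Mech n) : Prop :=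
  ∀ v ∈ D.support, IsOptimalFor D (top k v) v (m (top k v))

/-- The expected revenue of the `k`-lookahead mechanism `m`. -/
noncomputable def lookRev {n : ℕ} (k : ℕ) (D : (Fin n → ℝ) →₀ ℝ)
    (m : Finset (Fin n) → Mech n) : ℝ :=
  ∑ v ∈ D.support, D v * ∑ i ∈ top k v, (m (top k v)).p v i

/-- The approximation ratio of the `k`-lookahead mechanism. -/
noncomputable def rho (k : ℕ) : ℝ :=
  sInf {t : ℝ | ∃ (n : ℕ) (D : (Fin n → ℝ) →₀ ℝ) (m : Finset (Fin n) → Mech n),
    IsDist D ∧ 0 < OPT D ∧ IsLookahead k D m ∧ t = lookRev k D m / OPT D}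

/-! ### General facts on valid mechanisms -/

section general

variable {n : ℕ} {K : Finset (Fin n)} {M : Mech n}

lemma Valid.x_le_one (h : Valid K M) {v : Fin n → ℝ} (hv : ∀ i, 0 < v i) {i : Fin n}
    (hi : i ∈ K) : M.x v i ≤ 1 := by
  obtain ⟨h1, h2, -, -⟩ := h v hv
  exact (Finset.single_le_sum (f := fun i => M.x v i) h1 hi).trans h2

lemma Valid.p_le (h : Valid K M) {v : Fin n → ℝ} (hv : ∀ i, 0 < v i) {i : Fin n}
    (hi : i ∈ K) : M.p v i ≤ M.x v i * v i := by
  obtain ⟨-, -, h3, -⟩ := h v hv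
  linarith [h3 i hi]

lemma update_pos {v : Fin n → ℝ} (hv : ∀ i, 0 < v i) (i : Fin n) {b : ℝ} (hb : 0 < b) :
    ∀ j, 0 < update v i b j := by
  intro j
  rcases eq_or_ne j i with rfl | hj
  · simpa using hb
  · simpa [hj] using hv j

/-- Truthfulness between two reports. -/
lemma Valid.truth (h : Valid K M) {v : Fin n → ℝ} (hv : ∀ i, 0 < v i) {i : Fin n}
    (hi : i ∈ K) {b c : ℝ} (hb : 0 < b) (hc : 0 < c) :
    M.x (update v i c) i * b - M.p (update v i c) i ≤
      M.x (update v i b) i * b - M.p (update v i b) i := by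
  have := (h (update v i b) (update_pos hv i hb)).2.2.2 i hi c hc
  simpa using this

lemma Valid.mono (h : Valid K M) {v : Fin n → ℝ} (hv : ∀ i, 0 < v i) {i : Fin n}
    (hi : i ∈ K) {b c : ℝ} (hb : 0 < b) (hbc : b ≤ c) :
    M.x (update v i b) i ≤ M.x (update v i c) i := by
  rcases hbc.eq_or_lt with rfl | hlt
  · exact le_rfl
  · have h1 := h.truth hv hi hb (hb.trans hlt)
    have h2 := h.truth hv hi (hb.trans hlt) hb
    by_contra hcon
    push Not at hcon
    nlinarith

end general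

/-! ### Existence of optimal mechanisms -/

section existence

variable {n : ℕ}

/-- the infimum of the payments of `i` over her positive reports -/
noncomputable def g (M : Mech n) (i : Fin n) (v : Fin n → ℝ) : ℝ :=
  sInf ((fun b => M.p (update v i b) i) '' Set.Ioi 0)

lemma g_update (M : Mech n) (i : Fin n) (v : Fin n → ℝ) (b : ℝ) :
    g M i (update v i b) = g M i v := by
  simp [g]

variable {K : Finset (Fin n)} {M : Mech n}

lemma p_update_ge (h : Valid K M) {v : Fin n → ℝ} (hv : ∀ i, 0 < v i) {i : Fin n}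
    (hi : i ∈ K) {b : ℝ} (hb : 0 < b) :
    -(M.x v i * v i - M.p v i) ≤ M.p (update v i b) i := by
  have h1 := (h v hv).2.2.2 i hi b hb
  have h2 := (h (update v i b) (update_pos hv i hb)).1 i hi
  nlinarith [mul_nonneg h2 (hv i).le]

lemma g_bdd (h : Valid K M) {v : Fin n → ℝ} (hv : ∀ i, 0 < v i) {i : Fin n}
    (hi : i ∈ K) : BddBelow ((fun b => M.p (update v i b) i) '' Set.Ioi 0) := by
  refine ⟨-(M.x v i * v i - M.p v i), ?_⟩
  rintro _ ⟨b, hb, rfl⟩
  exact p_update_ge h hv hi hb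

lemma g_ge (h : Valid K M) {v : Fin n → ℝ} (hv : ∀ i, 0 < v i) {i : Fin n}
    (hi : i ∈ K) : -(M.x v i * v i - M.p v i) ≤ g M i v := by
  refine le_csInf ?_ ?_
  · exact ⟨_, 1, by simp, rfl⟩
  · rintro _ ⟨b, hb, rfl⟩
    exact p_update_ge h hv hi hb

lemma g_le (h : Valid K M) {v : Fin n → ℝ} (hv : ∀ i, 0 < v i) {i : Fin n}
    (hi : i ∈ K) : g M i v ≤ M.p v i := by
  refine csInf_le (g_bdd h hv hi) ⟨v i, hv i, ?_⟩
  simp

lemma g_nonpos (h : Valid K M) {v : Fin n → ℝ} (hv : ∀ i, 0 < v i) {i : Fin n}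
    (hi : i ∈ K) : g M i v ≤ 0 := by
  refine le_of_forall_pos_le_add fun δ hδ => ?_
  rw [zero_add]
  refine (csInf_le (g_bdd h hv hi) ⟨δ, hδ, rfl⟩).trans ?_
  have hp := update_pos hv i hδ
  have h1 := h.p_le hp hi
  have h2 := h.x_le_one hp hi
  rw [update_self] at h1
  nlinarith

open Classical in
/-- normalised mechanism with nonnegative payments -/
noncomputable def norm' (K : Finset (Fin n)) (M : Mech n) : Mech n where
  x v i := if (∀ i, 0 < v i) ∧ i ∈ K then M.x v i else 0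
  p v i := if (∀ i, 0 < v i) ∧ i ∈ K then M.p v i - g M i v else 0

/-- The compact set of normalised valid mechanisms. -/
def C (K : Finset (Fin n)) : Set (((Fin n → ℝ) → Fin n → ℝ) × ((Fin n → ℝ) → Fin n → ℝ)) :=
  ((Set.univ.pi fun _ => Set.univ.pi fun _ => Set.Icc 0 1) ×ˢ
    (Set.univ.pi fun v => Set.univ.pi fun i => Set.Icc 0 |v i|)) ∩
  {M | Valid K ⟨M.1, M.2⟩}

lemma isClosed_valid (K : Finset (Fin n)) :
    IsClosed {M : ((Fin n → ℝ) → Fin n → ℝ) × ((Fin n → ℝ) → Fin n → ℝ) |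
      Valid K ⟨M.1, M.2⟩} := by
  have hx : ∀ (v : Fin n → ℝ) (i : Fin n), Continuous
      (fun M : ((Fin n → ℝ) → Fin n → ℝ) × ((Fin n → ℝ) → Fin n → ℝ) => M.1 v i) := by
    intro v i; fun_prop
  have hp : ∀ (v : Fin n → ℝ) (i : Fin n), Continuous
      (fun M : ((Fin n → ℝ) → Fin n → ℝ) × ((Fin n → ℝ) → Fin n → ℝ) => M.2 v i) := by
    intro v i; fun_prop
  simp only [Valid, Set.ofPred_forall, Set.ofPred_and]
  refine isClosed_iInter fun v => isClosed_iInter fun _ => ?_
  refine (isClosed_iInter fun i => isClosed_iInter fun _ => ?_).inter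
    (IsClosed.inter ?_ (IsClosed.inter
      (isClosed_iInter fun i => isClosed_iInter fun _ => ?_)
      (isClosed_iInter fun i => isClosed_iInter fun _ => isClosed_iInter fun b =>
        isClosed_iInter fun _ => ?_)))
  · exact isClosed_le continuous_const (hx v i)
  · exact isClosed_le (continuous_finsetSum _ fun i _ => hx v i) continuous_const
  · exact isClosed_le continuous_const (((hx v i).mul continuous_const).sub (hp v i))
  · exact isClosed_le (((hx _ i).mul continuous_const).sub (hp _ i))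
      (((hx v i).mul continuous_const).sub (hp v i))

lemma isCompact_C (K : Finset (Fin n)) : IsCompact (C K) := by
  refine IsCompact.inter_right ?_ (isClosed_valid K)
  refine IsCompact.prod ?_ ?_
  · exact isCompact_univ_pi fun v => isCompact_univ_pi fun i => isCompact_Icc
  · exact isCompact_univ_pi fun v => isCompact_univ_pi fun i => isCompact_Icc

lemma valid_zero (K : Finset (Fin n)) : Valid K ⟨fun _ _ => 0, fun _ _ => 0⟩ := by
  intro v hv
  simp

lemma norm'_mem (h : Valid K M) : ((norm' K M).x, (norm' K M).p) ∈ C K := by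
  classical
  refine ⟨⟨?_, ?_⟩, ?_⟩
  · intro v _ i _
    simp only [norm']
    split_ifs with hc
    · exact ⟨(h v hc.1).1 i hc.2, h.x_le_one hc.1 hc.2⟩
    · simp
  · intro v _ i _
    simp only [norm']
    split_ifs with hc
    · refine ⟨by linarith [g_le h hc.1 hc.2], ?_⟩
      have h1 := g_ge h hc.1 hc.2
      have h2 := h.x_le_one hc.1 hc.2
      have h3 := le_abs_self (v i)
      nlinarith [hc.1 i]
    · simp
  · intro v hv
    simp only [norm']
    refine ⟨?_, ?_, ?_, ?_⟩
    · intro i hi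
      rw [if_pos ⟨hv, hi⟩]
      exact (h v hv).1 i hi
    · refine le_trans (le_of_eq ?_) (h v hv).2.1
      refine Finset.sum_congr rfl fun i hi => ?_
      rw [if_pos ⟨hv, hi⟩]
    · intro i hi
      rw [if_pos ⟨hv, hi⟩, if_pos ⟨hv, hi⟩]
      have h1 := g_ge h hv hi
      linarith
    · intro i hi b hb
      have hp := update_pos hv i hb
      rw [if_pos ⟨hp, hi⟩, if_pos ⟨hp, hi⟩, if_pos ⟨hv, hi⟩, if_pos ⟨hv, hi⟩, g_update]
      have := (h v hv).2.2.2 i hi b hb
      linarith

/-- For every distribution and every conditioning event there is a revenue-maximizing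
mechanism. -/
theorem exists_optimal (D : (Fin n → ℝ) →₀ ℝ) (hD : IsDist D) (K : Finset (Fin n))
    (v₀ : Fin n → ℝ) : ∃ M : Mech n, IsOptimalFor D K v₀ M := by
  classical
  let S : ((Fin n → ℝ) → Fin n → ℝ) × ((Fin n → ℝ) → Fin n → ℝ) → ℝ :=
    fun M => ∑ u ∈ cell D K v₀, D u * ∑ i ∈ K, M.2 u i
  have hS : Continuous S := by
    refine continuous_finsetSum _ fun u _ => continuous_const.mul ?_
    refine continuous_finsetSum _ fun i _ => ?_
    fun_prop
  have hne : (C K).Nonempty := ⟨_, norm'_mem (valid_zero K)⟩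
  obtain ⟨M, hM, hmax⟩ := (isCompact_C K).exists_isMaxOn hne hS.continuousOn
  refine ⟨⟨M.1, M.2⟩, hM.2, ?_⟩
  intro M' hM'
  have h1 : S ((norm' K M').x, (norm' K M').p) ≤ S M := hmax (norm'_mem hM')
  have hcell : ∀ u ∈ cell D K v₀, u ∈ D.support := by
    intro u hu
    exact (Finset.mem_filter.mp hu).1
  unfold condRev
  refine div_le_div_of_nonneg_right ?_ (Finset.sum_nonneg fun u _ => hD.1 u)
  refine le_trans ?_ h1
  refine Finset.sum_le_sum fun u hu => mul_le_mul_of_nonneg_left ?_ (hD.1 u)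
  refine Finset.sum_le_sum fun i hi => ?_
  have hpos := hD.2.2 u (hcell u hu)
  simp only [norm']
  rw [if_pos ⟨hpos, hi⟩]
  linarith [g_nonpos hM' hpos hi]

end existence

/-! ### Payments of an optimal mechanism are nonnegative on the event -/

section nonneg

variable {n : ℕ} {K : Finset (Fin n)} {M : Mech n}

lemma norm'_valid (h : Valid K M) : Valid K (norm' K M) := (norm'_mem h).2

lemma cell_subset (D : (Fin n → ℝ) →₀ ℝ) (K : Finset (Fin n)) (v₀ : Fin n → ℝ) :
    ∀ u ∈ cell D K v₀, u ∈ D.support := by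
  intro u hu
  exact (Finset.mem_filter.mp hu).1

lemma D_pos {D : (Fin n → ℝ) →₀ ℝ} (hD : IsDist D) {u : Fin n → ℝ} (hu : u ∈ D.support) :
    0 < D u := lt_of_le_of_ne (hD.1 u) (Ne.symm (Finsupp.mem_support_iff.mp hu))

lemma IsOptimalFor.pay_nonneg {D : (Fin n → ℝ) →₀ ℝ} (hD : IsDist D) {v₀ : Fin n → ℝ}
    (h : IsOptimalFor D K v₀ M) {u : Fin n → ℝ} (hu : u ∈ cell D K v₀) {i : Fin n}
    (hi : i ∈ K) : 0 ≤ M.p u i := by
  by_contra hneg
  push Not at hneg
  have hV := h.1
  have h1 := h.2 _ (norm'_valid hV)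
  refine absurd h1 (not_le.mpr ?_)
  unfold condRev
  have htot : 0 < ∑ u ∈ cell D K v₀, D u :=
    Finset.sum_pos (fun u hu => D_pos hD (cell_subset D K v₀ u hu)) ⟨u, hu⟩
  refine div_lt_div_of_pos_right ?_ htot
  have hterm : ∀ w ∈ cell D K v₀, ∀ j ∈ K, (norm' K M).p w j = M.p w j - g M j w := by
    intro w hw j hj
    have hpos := hD.2.2 w (cell_subset D K v₀ w hw)
    simp only [norm']
    rw [if_pos ⟨hpos, hj⟩]
  have hle : ∀ w ∈ cell D K v₀, ∀ j ∈ K, M.p w j ≤ (norm' K M).p w j := by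
    intro w hw j hj
    rw [hterm w hw j hj]
    linarith [g_nonpos hV (hD.2.2 w (cell_subset D K v₀ w hw)) hj]
  refine Finset.sum_lt_sum ?_ ⟨u, hu, ?_⟩
  · intro w hw
    exact mul_le_mul_of_nonneg_left (Finset.sum_le_sum fun j hj => hle w hw j hj) (hD.1 w)
  · refine mul_lt_mul_of_pos_left ?_ (D_pos hD (cell_subset D K v₀ u hu))
    refine Finset.sum_lt_sum (fun j hj => hle u hu j hj) ⟨i, hi, ?_⟩
    rw [hterm u hu i hi]
    have := g_le hV (hD.2.2 u (cell_subset D K v₀ u hu)) hi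
    linarith

lemma mem_cell_top {D : (Fin n → ℝ) →₀ ℝ} {v : Fin n → ℝ} (hv : v ∈ D.support) (k : ℕ) :
    v ∈ cell D (top k v) v := by
  classical
  refine Finset.mem_filter.mpr ⟨hv, fun _ _ => rfl, ?_⟩
  intro i hi j hj
  by_contra hcon
  push Not at hcon
  simp only [top, Finset.mem_filter, Finset.mem_univ, true_and] at hi hj
  refine hj (lt_of_le_of_lt (Finset.card_le_card ?_) hi)
  intro l hl
  simp only [Finset.mem_filter, Finset.mem_univ, true_and] at hl ⊢
  left
  rcases hl with hl | hl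
  · exact hcon.trans hl
  · rw [hl.1]; exact hcon

lemma lookRev_nonneg {k : ℕ} {D : (Fin n → ℝ) →₀ ℝ} (hD : IsDist D)
    {m : Finset (Fin n) → Mech n} (hm : IsLookahead k D m) : 0 ≤ lookRev k D m := by
  refine Finset.sum_nonneg fun v hv => mul_nonneg (hD.1 v) ?_
  exact Finset.sum_nonneg fun i hi => (hm v hv).pay_nonneg hD (mem_cell_top hv k) hi

lemma rho_bddBelow (k : ℕ) : BddBelow {t : ℝ | ∃ (n : ℕ) (D : (Fin n → ℝ) →₀ ℝ)
    (m : Finset (Fin n) → Mech n),
    IsDist D ∧ 0 < OPT D ∧ IsLookahead k D m ∧ t = lookRev k D m / OPT D} := by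
  refine ⟨0, ?_⟩
  rintro _ ⟨n, D, m, hD, hO, hm, rfl⟩
  exact div_nonneg (lookRev_nonneg hD hm) hO.le

lemma exists_lookahead {k : ℕ} {D : (Fin n → ℝ) →₀ ℝ} (hD : IsDist D)
    (hcell : ∃ (K : Finset (Fin n)) (v₀ : Fin n → ℝ), ∀ v ∈ D.support,
      top k v = K ∧ cell D K v = cell D K v₀) :
    ∃ m : Finset (Fin n) → Mech n, IsLookahead k D m := by
  obtain ⟨K, v₀, h⟩ := hcell
  obtain ⟨M, hM⟩ := exists_optimal D hD K v₀
  refine ⟨fun _ => M, ?_⟩
  intro v hv
  obtain ⟨h1, h2⟩ := h v hv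
  rw [h1]
  refine ⟨hM.1, ?_⟩
  intro M' hM'
  have := hM.2 M' hM'
  unfold condRev at this ⊢
  rw [h2]
  exact this

/-- The revenue of a valid mechanism is bounded. -/
lemma rev_bddAbove (D : (Fin n → ℝ) →₀ ℝ) (hD : IsDist D) :
    BddAbove {r : ℝ | ∃ M : Mech n, Valid univ M ∧
      r = ∑ v ∈ D.support, D v * ∑ i, M.p v i} := by
  refine ⟨∑ v ∈ D.support, D v * ∑ i, v i, ?_⟩
  rintro _ ⟨M, hM, rfl⟩
  refine Finset.sum_le_sum fun v hv => mul_le_mul_of_nonneg_left ?_ (hD.1 v)
  refine Finset.sum_le_sum fun i _ => ?_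
  have hpos := hD.2.2 v hv
  have h1 := hM.p_le hpos (Finset.mem_univ i)
  have h2 := hM.x_le_one hpos (Finset.mem_univ i)
  nlinarith [hpos i]

lemma le_OPT (D : (Fin n → ℝ) →₀ ℝ) (hD : IsDist D) {M : Mech n} (hM : Valid univ M) :
    ∑ v ∈ D.support, D v * ∑ i, M.p v i ≤ OPT D :=
  le_csSup (rev_bddAbove D hD) ⟨M, hM, rfl⟩

end nonneg

end Pool.Agent.H49.Look
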